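import Mathlib
import Pool.Agent.TH932.S2.G.Crit

set_option autoImplicit false

/-!
# The block complexity of the parities of the trajectories of the map `F_{7/2}`
-/

namespace Pool.Agent.Results.MP_625168_nt.SuperlinearParities

open Filter Topology Pool.Agent.TH932.S2.G

/-- the map of the problem -/
def F (x : ℕ) : ℕ := if x % 2 = 0 then x / 2 else (7 * x + 1) / 2

/-- the number of different blocks of `n` consecutive parities in the trajectory -/
noncomputable def blocks (x n : ℕ) : ℕ :=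
  (Set.range fun i : ℕ => fun j : Fin n => ((F^[i + j] x : ℕ) : ZMod 2)).ncard

/-- the number of different blocks of `n` consecutive parities among the first `h` terms of the
trajectory -/
noncomputable def blocksUpTo (x h n : ℕ) : ℕ :=
  ((fun i : ℕ => fun j : Fin n => ((F^[i + j] x : ℕ) : ZMod 2)) '' {i | i + n ≤ h}).ncard

/-- the map on the integers -/
def G (x : ℤ) : ℤ := if x % 2 = 0 then x / 2 else (7 * x + 1) / 2

/-- exponents -/
def dl (a : ZMod 2) : ℕ := if a = 0 then 0 else 1

/-- constant terms -/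
def bt (a : ZMod 2) : ℤ := if a = 0 then 0 else 1

lemma hG (x : ℤ) : ((2 : ℕ) : ℤ) * G x = ((7 : ℕ) : ℤ) ^ dl (x : ZMod 2) * x + bt (x : ZMod 2) := by
  have e0 : (x : ZMod 2) = 0 ↔ x % 2 = 0 := by
    rw [ZMod.intCast_zmod_eq_zero_iff_dvd]
    omega
  unfold G dl bt
  rcases (by omega : x % 2 = 0 ∨ x % 2 = 1) with h | h
  · rw [if_pos h, if_pos (e0.2 h), if_pos (e0.2 h)]
    push_cast
    omega
  · rw [if_neg (by omega), if_neg (by rw [e0]; omega), if_neg (by rw [e0]; omega)]
    push_cast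
    omega

lemma G_iter (n k : ℕ) : G^[k] (n : ℤ) = ((F^[k] n : ℕ) : ℤ) := by
  induction k with
  | zero => rfl
  | succ k ih =>
    rw [Function.iterate_succ_apply', Function.iterate_succ_apply', ih]
    rcases Nat.mod_two_eq_zero_or_one (F^[k] n) with h | h
    · rw [F, if_pos h, G, if_pos (by omega)]
      push_cast
      rfl
    · rw [F, if_neg (by omega), G, if_neg (by omega)]
      push_cast
      rfl

lemma blk_eq (x h n : ℕ) : Gc.blk 2 G (x : ℤ) h n = blocksUpTo x h n := by
  unfold Gc.blk blocksUpTo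
  congr 1
  refine Set.image_congr fun i _ => ?_
  funext j
  rw [G_iter, Int.cast_natCast]

lemma blkAll_eq (x n : ℕ) : Gc.blkAll 2 G (x : ℤ) n = blocks x n := by
  unfold Gc.blkAll blocks
  congr 2
  funext i j
  rw [G_iter, Int.cast_natCast]

lemma unb_iff (x : ℕ) : (∀ R : ℤ, ∃ k, R < |G^[k] (x : ℤ)|) ↔ ∀ R : ℕ, ∃ k, R < F^[k] x := by
  constructor
  · intro h R
    obtain ⟨k, hk⟩ := h R
    rw [G_iter, abs_of_nonneg (by positivity)] at hk
    exact ⟨k, by exact_mod_cast hk⟩
  · intro h R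
    obtain ⟨k, hk⟩ := h R.toNat
    refine ⟨k, ?_⟩
    rw [G_iter, abs_of_nonneg (by positivity)]
    omega

/-- **Result.** (1) If the trajectory of `x` under the map `F_{7/2}` is divergent, then `p (n) / n`
tends to infinity, where `p (n)` is the number of different blocks of `n` consecutive parities in
it.

(2) For every `A` there is `K` such that, for all `N ≥ K` and all `x ≤ 2 ^ N`: if at most `A N`
different blocks of length `N` occur among the first `N ^ K` terms of the trajectory of `x`, then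
the trajectory reaches, after at most `N ^ K` steps, a cycle of length at most `N ^ K`, and all its
terms are at most `2 ^ (K N)`.

(3) For every `A > 0` there is `K` such that, for all `x` and all `N₀ ≥ K` with `x ≤ 2 ^ N₀` (for
instance `x = 3` and `N₀ = K + 2`): the trajectory of `x` is divergent if and only if, for every
`N ≥ N₀`, more than `A N` different blocks of length `N` occur among its first `N ^ K` terms. -/
theorem result :
    (∀ x : ℕ, (∀ R : ℕ, ∃ k, R < F^[k] x) →
      Tendsto (fun n : ℕ => (blocks x n : ℝ) / n) atTop atTop) ∧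
    (∀ A : ℝ, ∃ K : ℕ, ∀ x N : ℕ, K ≤ N → x ≤ 2 ^ N →
      (blocksUpTo x (N ^ K) N : ℝ) ≤ A * N →
      (∃ i ≤ N ^ K, ∃ k, 1 ≤ k ∧ k ≤ N ^ K ∧ F^[k] (F^[i] x) = F^[i] x) ∧
        ∀ j, F^[j] x ≤ 2 ^ (K * N)) ∧
    (∀ A : ℝ, 0 < A → ∃ K : ℕ, ∀ x N₀ : ℕ, K ≤ N₀ → x ≤ 2 ^ N₀ →
      ((∀ R : ℕ, ∃ k, R < F^[k] x) ↔
        ∀ N : ℕ, N₀ ≤ N → A * N < blocksUpTo x (N ^ K) N)) := by
  refine ⟨fun x hx => ?_, fun A => ?_, fun A hA => ?_⟩
  · have h := Gc.unb (d := 2) (q := 7) le_rfl (by norm_num) (by norm_num) hG ((unb_iff x).2 hx)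
    simp only [blkAll_eq] at h
    exact h
  · obtain ⟨K, h⟩ := Gc.one (d := 2) (q := 7) le_rfl (by norm_num) (by norm_num) hG A
    refine ⟨K, fun x N hN hx hcx => ?_⟩
    obtain ⟨⟨i, hi, k, hk1, hk2, hk⟩, hb⟩ := h (x : ℤ) N hN (by
      rw [abs_of_nonneg (by positivity)]
      exact_mod_cast hx) (by rw [blk_eq]; exact hcx)
    rw [G_iter, G_iter] at hk
    refine ⟨⟨i, hi, k, hk1, hk2, by exact_mod_cast hk⟩, fun j => ?_⟩
    have h1 := hb j
    rw [G_iter, abs_of_nonneg (by positivity)] at h1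
    exact_mod_cast h1
  · obtain ⟨K, h⟩ := Gc.crit (d := 2) (q := 7) le_rfl (by norm_num) (by norm_num) hG A hA
    refine ⟨K, fun x N₀ hN hx => ?_⟩
    rw [← unb_iff, h (x : ℤ) N₀ hN (by
      rw [abs_of_nonneg (by positivity)]
      exact_mod_cast hx)]
    simp only [blk_eq]

end Pool.Agent.Results.MP_625168_nt.SuperlinearParities
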